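import Mathlib
import Pool.Agent.Helper97.CB.Defs

open MeasureTheory Set Filter

namespace Helper51.KD

open Helper97.CB

/-- the standard triangle -/
def T0 : Set ℂ := {z | 0 ≤ z.re ∧ 0 ≤ z.im ∧ z.re + z.im ≤ 1}

theorem volume_T0 : volume T0 ≤ ENNReal.ofReal (1 / 2) := by
  have h1 := Complex.volume_preserving_equiv_real_prod
  have hm : MeasurableSet {p : ℝ × ℝ | 0 ≤ p.1 ∧ 0 ≤ p.2 ∧ p.1 + p.2 ≤ 1} := by
    have e : {p : ℝ × ℝ | 0 ≤ p.1 ∧ 0 ≤ p.2 ∧ p.1 + p.2 ≤ 1} =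
        ({p : ℝ × ℝ | 0 ≤ p.1} ∩ {p : ℝ × ℝ | 0 ≤ p.2}) ∩ {p : ℝ × ℝ | p.1 + p.2 ≤ 1} := by
      ext p
      simp only [mem_ofPred_eq, mem_inter_iff]
      tauto
    rw [e]
    exact ((measurableSet_le measurable_const measurable_fst).inter
      (measurableSet_le measurable_const measurable_snd)).inter
      (measurableSet_le (measurable_fst.add measurable_snd) measurable_const)
  have h2 : T0 = Complex.measurableEquivRealProd ⁻¹'
      {p : ℝ × ℝ | 0 ≤ p.1 ∧ 0 ≤ p.2 ∧ p.1 + p.2 ≤ 1} := by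
    ext z
    simp [T0, Complex.measurableEquivRealProd_apply]
  rw [h2, h1.measure_preimage hm.nullMeasurableSet]
  rw [Measure.volume_eq_prod, Measure.prod_apply hm]
  have h3 : ∀ s : ℝ, volume (Prod.mk s ⁻¹' {p : ℝ × ℝ | 0 ≤ p.1 ∧ 0 ≤ p.2 ∧ p.1 + p.2 ≤ 1}) ≤
      (Icc (0 : ℝ) 1).indicator (fun s => ENNReal.ofReal (1 - s)) s := by
    intro s
    by_cases hs : s ∈ Icc (0 : ℝ) 1
    · rw [indicator_of_mem hs]
      have : Prod.mk s ⁻¹' {p : ℝ × ℝ | 0 ≤ p.1 ∧ 0 ≤ p.2 ∧ p.1 + p.2 ≤ 1} ⊆ Icc (0 : ℝ) (1 - s) := by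
        intro t ht
        simp only [mem_preimage, mem_ofPred_eq] at ht
        exact ⟨ht.2.1, by linarith [ht.2.2]⟩
      refine (measure_mono this).trans ?_
      rw [Real.volume_Icc]
      simp
    · rw [indicator_of_notMem hs]
      have : Prod.mk s ⁻¹' {p : ℝ × ℝ | 0 ≤ p.1 ∧ 0 ≤ p.2 ∧ p.1 + p.2 ≤ 1} = ∅ := by
        ext t
        simp only [mem_preimage, mem_ofPred_eq, mem_empty_iff_false, iff_false]
        intro ht
        exact hs ⟨ht.1, by linarith [ht.2.1, ht.2.2]⟩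
      rw [this]
      simp
  refine (lintegral_mono h3).trans ?_
  rw [lintegral_indicator measurableSet_Icc]
  rw [← ofReal_integral_eq_lintegral_ofReal]
  · apply ENNReal.ofReal_le_ofReal
    rw [integral_Icc_eq_integral_Ioc, ← intervalIntegral.integral_of_le zero_le_one]
    rw [intervalIntegral.integral_sub (by simp) (by simp)]
    simp
    norm_num
  · exact (continuous_const.sub continuous_id).integrableOn_Icc
  · filter_upwards [self_mem_ae_restrict measurableSet_Icc] with s hs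
    simpa using hs.2

/-- the linear map of the plane with columns `u`, `w` -/
noncomputable def Lm (u w : ℂ) : ℂ →ₗ[ℝ] ℂ :=
  Matrix.toLin Complex.basisOneI Complex.basisOneI !![u.re, w.re; u.im, w.im]

theorem Lm_apply (u w z : ℂ) : Lm u w z = (z.re : ℂ) * u + (z.im : ℂ) * w := by
  unfold Lm
  rw [Matrix.toLin_apply]
  simp only [Matrix.mulVec, dotProduct, Fin.sum_univ_two, Complex.coe_basisOneI_repr,
    Complex.coe_basisOneI, Matrix.cons_val_zero, Matrix.cons_val_one, Matrix.of_apply,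
    Matrix.cons_val', Matrix.cons_val_fin_one]
  apply Complex.ext <;> simp <;> ring

theorem Lm_det (u w : ℂ) : LinearMap.det (Lm u w) = cr u w := by
  unfold Lm cr
  rw [LinearMap.det_toLin, Matrix.det_fin_two_of]
  ring

theorem hull_eq (a b c : ℂ) : convexHull ℝ ({a, b, c} : Set ℂ) ⊆
    (fun z => a + z) '' (Lm (b - a) (c - a) '' T0) := by
  apply convexHull_min
  · intro x hx
    simp only [mem_insert_iff, mem_singleton_iff] at hx
    rcases hx with rfl | rfl | rfl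
    · exact ⟨0, ⟨0, by simp [T0], by simp⟩, by simp⟩
    · exact ⟨x - a, ⟨1, by simp [T0], by rw [Lm_apply]; simp⟩, by simp⟩
    · exact ⟨x - a, ⟨Complex.I, by simp [T0], by rw [Lm_apply]; simp⟩, by simp⟩
  · have hT : Convex ℝ T0 := by
      intro x hx y hy s t hs ht hst
      simp only [T0, mem_ofPred_eq, Complex.add_re, Complex.add_im, Complex.real_smul,
        Complex.mul_re, Complex.mul_im, Complex.ofReal_re, Complex.ofReal_im] at *
      refine ⟨by nlinarith [mul_nonneg hs hx.1, mul_nonneg ht hy.1],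
        by nlinarith [mul_nonneg hs hx.2.1, mul_nonneg ht hy.2.1], ?_⟩
      nlinarith [mul_le_mul_of_nonneg_left hx.2.2 hs, mul_le_mul_of_nonneg_left hy.2.2 ht]
    have := (hT.linear_image (Lm (b - a) (c - a))).translate a
    simpa using this

theorem volume_hull_le (a b c : ℂ) : volume (convexHull ℝ ({a, b, c} : Set ℂ)) ≤
    ENNReal.ofReal (|cr (b - a) (c - a)| / 2) := by
  refine (measure_mono (hull_eq a b c)).trans ?_
  rw [image_add_left, measure_preimage_add, Measure.addHaar_image_linearMap, Lm_det]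
  calc ENNReal.ofReal |cr (b - a) (c - a)| * volume T0
      ≤ ENNReal.ofReal |cr (b - a) (c - a)| * ENNReal.ofReal (1 / 2) := by
        gcongr
        exact volume_T0
    _ = _ := by
        rw [← ENNReal.ofReal_mul (abs_nonneg _)]
        congr 1
        ring

theorem cr_le (a b c : ℂ) (ρ : ℝ) (ha : ‖a‖ ≤ ρ) (hb : ‖b‖ ≤ ρ) (hc : ‖c‖ ≤ ρ) :
    cr (b - a) (c - a) ≤ 3 * √3 / 2 * ρ ^ 2 := by
  have h3 : (√3) ^ 2 = 3 := Real.sq_sqrt (by norm_num)
  have h3p : 0 < √3 := by positivity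
  set om : ℂ := ⟨-1 / 2, √3 / 2⟩ with hom
  set om' : ℂ := ⟨-1 / 2, -(√3 / 2)⟩ with hom'
  have n1 : ‖om‖ = 1 := by
    rw [Complex.norm_def, Complex.normSq_apply]
    simp only [hom]
    rw [show (-1 / 2 : ℝ) * (-1 / 2) + √3 / 2 * (√3 / 2) = 1 by nlinarith]
    simp
  have n2 : ‖om'‖ = 1 := by
    rw [Complex.norm_def, Complex.normSq_apply]
    simp only [hom']
    rw [show (-1 / 2 : ℝ) * (-1 / 2) + -(√3 / 2) * -(√3 / 2) = 1 by nlinarith]
    simp
  have key : Complex.normSq (a + om' * b + om * c) - Complex.normSq (a + om * b + om' * c) =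
      2 * √3 * cr (b - a) (c - a) := by
    simp only [Complex.normSq_apply, cr, hom, hom', Complex.add_re, Complex.add_im,
      Complex.mul_re, Complex.mul_im, Complex.sub_re, Complex.sub_im]
    ring
  have hle : Complex.normSq (a + om' * b + om * c) ≤ 9 * ρ ^ 2 := by
    rw [Complex.normSq_eq_norm_sq]
    have : ‖a + om' * b + om * c‖ ≤ 3 * ρ := by
      calc ‖a + om' * b + om * c‖ ≤ ‖a‖ + ‖om' * b‖ + ‖om * c‖ := norm_add₃_le
        _ = ‖a‖ + ‖b‖ + ‖c‖ := by rw [norm_mul, norm_mul, n1, n2]; ring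
        _ ≤ 3 * ρ := by linarith
    nlinarith [norm_nonneg (a + om' * b + om * c)]
  have h0 := Complex.normSq_nonneg (a + om * b + om' * c)
  have h4 : 2 * √3 * cr (b - a) (c - a) ≤ 9 * ρ ^ 2 := by linarith
  have h5 : 2 * √3 * (3 * √3 / 2 * ρ ^ 2) = 9 * ρ ^ 2 := by
    have : 2 * √3 * (3 * √3 / 2 * ρ ^ 2) = 3 * (√3) ^ 2 * ρ ^ 2 := by ring
    rw [this, h3]
    ring
  by_contra hcon
  push Not at hcon
  have : 2 * √3 * (3 * √3 / 2 * ρ ^ 2) < 2 * √3 * cr (b - a) (c - a) :=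
    mul_lt_mul_of_pos_left hcon (by positivity)
  linarith

/-- A triangle with vertices in a disk of radius `ρ` has area at most `(3 √3 / 4) ρ²`. -/
theorem area_hull (v a b c : ℂ) (ρ : ℝ) (ha : ‖a - v‖ ≤ ρ) (hb : ‖b - v‖ ≤ ρ)
    (hc : ‖c - v‖ ≤ ρ) :
    volume (convexHull ℝ ({a, b, c} : Set ℂ)) ≤ ENNReal.ofReal (3 * √3 / 4 * ρ ^ 2) := by
  refine (volume_hull_le a b c).trans (ENNReal.ofReal_le_ofReal ?_)
  have h1 := cr_le (a - v) (b - v) (c - v) ρ ha hb hc
  have h2 := cr_le (a - v) (c - v) (b - v) ρ ha hc hb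
  have e1 : b - v - (a - v) = b - a := by ring
  have e2 : c - v - (a - v) = c - a := by ring
  rw [e1, e2] at h1 h2
  have e3 : cr (c - a) (b - a) = - cr (b - a) (c - a) := by
    simp only [cr]
    ring
  rw [e3] at h2
  have : |cr (b - a) (c - a)| ≤ 3 * √3 / 2 * ρ ^ 2 := abs_le.2 ⟨by linarith, h1⟩
  linarith

end Helper51.KD
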