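import Mathlib
import Pool.Agent.Helper97.CB.Defs

open MeasureTheory Set Filter

namespace Helper51.KD

open Helper97.CB

/-- the affine function with coefficients `p, r, t` -/
def aff (p r t : ℝ) (z : ℂ) : ℝ := p * z.re + r * z.im + t

/-- the lifted height -/
noncomputable def qf (w : ℂ → ℝ) (z : ℂ) : ℝ := Complex.normSq z + w z

/-- no four points of `S` (three of them non collinear) have coplanar lifts -/
def Gen (S : Finset ℂ) (w : ℂ → ℝ) : Prop :=
  ∀ a ∈ S, ∀ b ∈ S, ∀ c ∈ S, ∀ d ∈ S, cr (b - a) (c - a) ≠ 0 → d ≠ a → d ≠ b → d ≠ c →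
    ∀ p r t : ℝ, aff p r t a = qf w a → aff p r t b = qf w b → aff p r t c = qf w c →
      aff p r t d ≠ qf w d

/-- Delaunay triangles with increasing imaginary parts -/
def Del (S : Finset ℂ) (w : ℂ → ℝ) (a b c : ℂ) : Prop :=
  a ∈ S ∧ b ∈ S ∧ c ∈ S ∧ a.im < b.im ∧ b.im < c.im ∧ cr (b - a) (c - a) ≠ 0 ∧
    ∃ p r t : ℝ, aff p r t a = qf w a ∧ aff p r t b = qf w b ∧ aff p r t c = qf w c ∧
      ∀ s ∈ S, aff p r t s ≤ qf w s

/-- the signed horizontal distance from `b` to the side `a c` -/
noncomputable def sd (a b c : ℂ) : ℝ :=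
  ((c.im - b.im) * a.re + (b.im - a.im) * c.re) / (c.im - a.im) - b.re

theorem sd_ne {a b c : ℂ} (h1 : a.im < b.im) (h2 : b.im < c.im) (h : cr (b - a) (c - a) ≠ 0) :
    sd a b c ≠ 0 := by
  intro h0
  apply h
  have h3 : c.im - a.im ≠ 0 := by linarith
  unfold sd at h0
  have h4 : (c.im - b.im) * a.re + (b.im - a.im) * c.re = b.re * (c.im - a.im) := by
    field_simp at h0
    linarith
  simp only [cr, Complex.sub_re, Complex.sub_im]
  nlinarith

theorem sd_point {a b c : ℂ} (h1 : a.im < b.im) (h2 : b.im < c.im) {s u : ℝ}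
    (hu : u * sd a b c = s) : 
    b + (s : ℂ) = ((u * ((c.im - b.im) / (c.im - a.im)) : ℝ) : ℂ) * a + ((1 - u : ℝ) : ℂ) * b +
      ((u * ((b.im - a.im) / (c.im - a.im)) : ℝ) : ℂ) * c := by
  have h3 : c.im - a.im ≠ 0 := by linarith
  apply Complex.ext
  · simp only [Complex.add_re, Complex.mul_re, Complex.ofReal_re, Complex.ofReal_im]
    rw [← hu]
    unfold sd
    field_simp
    ring
  · simp only [Complex.add_im, Complex.mul_im, Complex.ofReal_re, Complex.ofReal_im]
    field_simp
    ring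

theorem aff_comb (p r t : ℝ) (a b c : ℂ) (x y z : ℝ) (h : x + y + z = 1) :
    aff p r t ((x : ℂ) * a + (y : ℂ) * b + (z : ℂ) * c) =
      x * aff p r t a + y * aff p r t b + z * aff p r t c := by
  simp only [aff, Complex.add_re, Complex.mul_re, Complex.ofReal_re, Complex.ofReal_im,
    Complex.add_im, Complex.mul_im]
  have : t = (x + y + z) * t := by rw [h, one_mul]
  nlinarith [this]

/-- two Delaunay triangles with the same middle vertex and the same side are equal -/
theorem del_unique {S : Finset ℂ} {w : ℂ → ℝ} (hG : Gen S w) {a b c a' c' : ℂ}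
    (h : Del S w a b c) (h' : Del S w a' b c') (hs : 0 < sd a b c * sd a' b c') :
    a = a' ∧ c = c' := by
  obtain ⟨ha, hb, hc, hab, hbc, hn, p, r, t, la, lb, lc, hl⟩ := h
  obtain ⟨ha', -, hc', hab', hbc', hn', p', r', t', la', lb', lc', hl'⟩ := h'
  set σ := sd a b c with hσ
  set σ' := sd a' b c' with hσ'
  have hsum : σ + σ' ≠ 0 := by
    intro h0
    have : σ' = - σ := by linarith
    rw [this] at hs
    nlinarith [mul_self_nonneg σ]
  -- the common point
  set u := σ' / (σ + σ') with hu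
  set u' := σ / (σ + σ') with hu'
  have hsq : 0 < (σ + σ') ^ 2 := by positivity
  have hu0 : 0 < u := by
    have : u = (σ' * (σ + σ')) / (σ + σ') ^ 2 := by
      rw [hu]
      field_simp
    rw [this]
    apply div_pos _ hsq
    nlinarith [mul_self_nonneg σ']
  have hu0' : 0 < u' := by
    have : u' = (σ * (σ + σ')) / (σ + σ') ^ 2 := by
      rw [hu']
      field_simp
    rw [this]
    apply div_pos _ hsq
    nlinarith [mul_self_nonneg σ]
  have huu : u + u' = 1 := by
    rw [hu, hu', ← add_div, add_comm σ' σ, div_self hsum]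
  have e1 : u * sd a b c = u' * sd a' b c' := by
    rw [← hσ, ← hσ', hu, hu']
    ring
  have P := sd_point (a := a) (b := b) (c := c) hab hbc (s := u * sd a b c) (u := u) rfl
  have P' := sd_point (a := a') (b := b) (c := c') hab' hbc' (s := u * sd a b c) (u := u') e1.symm
  have d1 : 0 < c.im - a.im := by linarith
  have d1' : 0 < c'.im - a'.im := by linarith
  set x1 := u * ((c.im - b.im) / (c.im - a.im)) with hx1
  set x3 := u * ((b.im - a.im) / (c.im - a.im)) with hx3
  set y1 := u' * ((c'.im - b.im) / (c'.im - a'.im)) with hy1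
  set y3 := u' * ((b.im - a'.im) / (c'.im - a'.im)) with hy3
  have px1 : 0 < x1 := mul_pos hu0 (div_pos (by linarith) d1)
  have px3 : 0 < x3 := mul_pos hu0 (div_pos (by linarith) d1)
  have py1 : 0 < y1 := mul_pos hu0' (div_pos (by linarith) d1')
  have py3 : 0 < y3 := mul_pos hu0' (div_pos (by linarith) d1')
  have px2 : 0 < 1 - u := by linarith
  have py2 : 0 < 1 - u' := by linarith
  have sx : x1 + (1 - u) + x3 = 1 := by
    rw [hx1, hx3]
    field_simp
    ring
  have sy : y1 + (1 - u') + y3 = 1 := by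
    rw [hy1, hy3]
    field_simp
    ring
  have A1 := aff_comb p r t a b c x1 (1 - u) x3 sx
  have A2 := aff_comb p' r' t' a b c x1 (1 - u) x3 sx
  have B1 := aff_comb p r t a' b c' y1 (1 - u') y3 sy
  have B2 := aff_comb p' r' t' a' b c' y1 (1 - u') y3 sy
  rw [← P] at A1 A2
  rw [← P'] at B1 B2
  -- compare
  have k1 := hl' a ha
  have k3 := hl' c hc
  have m1 := hl a' ha'
  have m3 := hl c' hc'
  rw [la, lb, lc] at A1
  rw [la', lb', lc'] at B2
  rw [lb'] at A2
  rw [lb] at B1
  have g1 := mul_le_mul_of_nonneg_left k1 px1.le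
  have g3 := mul_le_mul_of_nonneg_left k3 px3.le
  have f1 := mul_le_mul_of_nonneg_left m1 py1.le
  have f3 := mul_le_mul_of_nonneg_left m3 py3.le
  have E1 : aff p' r' t' a = qf w a := by
    apply le_antisymm k1
    by_contra hcon
    push Not at hcon
    have := mul_lt_mul_of_pos_left hcon px1
    linarith
  have E3 : aff p' r' t' c = qf w c := by
    apply le_antisymm k3
    by_contra hcon
    push Not at hcon
    have := mul_lt_mul_of_pos_left hcon px3
    linarith
  constructor
  · by_contra hne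
    exact hG a ha b hb c hc a' ha' hn (fun h => hne h.symm) (fun h => by rw [h] at hab'; exact lt_irrefl _ hab')
      (fun h => by rw [h] at hab'; exact lt_asymm hab' hbc) p' r' t' E1 lb' E3 la'
  · by_contra hne
    exact hG a ha b hb c hc c' hc' hn (fun h => by rw [h] at hbc'; exact lt_asymm hbc' hab)
      (fun h => by rw [h] at hbc'; exact lt_irrefl _ hbc') (fun h => hne h.symm) p' r' t' E1 lb' E3 lc'

open Classical in
/-- the set of Delaunay triangles -/
noncomputable def DT (S : Finset ℂ) (w : ℂ → ℝ) : Finset (ℂ × ℂ × ℂ) :=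
  (S ×ˢ S ×ˢ S).filter (fun T => Del S w T.1 T.2.1 T.2.2)

theorem mem_DT {S : Finset ℂ} {w : ℂ → ℝ} {T : ℂ × ℂ × ℂ} :
    T ∈ DT S w ↔ Del S w T.1 T.2.1 T.2.2 := by
  classical
  simp only [DT, Finset.mem_filter, Finset.mem_product]
  constructor
  · exact fun h => h.2
  · exact fun h => ⟨⟨h.1, h.2.1, h.2.2.1⟩, h⟩

/-- there are at most `2 |S|` Delaunay triangles -/
theorem card_DT {S : Finset ℂ} {w : ℂ → ℝ} (hG : Gen S w) : (DT S w).card ≤ 2 * S.card := by
  classical
  have h1 : (DT S w).card ≤ (S ×ˢ (Finset.univ : Finset Bool)).card := by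
    apply Finset.card_le_card_of_injOn (fun T => (T.2.1, decide (0 < sd T.1 T.2.1 T.2.2)))
    · intro T hT
      rw [Finset.mem_coe, mem_DT] at hT
      simp only [Finset.coe_product, mem_prod, Finset.mem_coe, Finset.mem_univ, and_true]
      exact hT.2.1
    · rintro ⟨a, b, c⟩ hT ⟨a', b', c'⟩ hT' heq
      rw [Finset.mem_coe, mem_DT] at hT hT'
      simp only [Prod.mk.injEq, decide_eq_decide] at heq
      obtain ⟨h1, h2⟩ := heq
      subst h1
      simp only at hT hT'
      have n1 := sd_ne hT.2.2.2.1 hT.2.2.2.2.1 hT.2.2.2.2.2.1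
      have n2 := sd_ne hT'.2.2.2.1 hT'.2.2.2.2.1 hT'.2.2.2.2.2.1
      have hs : 0 < sd a b c * sd a' b c' := by
        by_cases hp : 0 < sd a b c
        · exact mul_pos hp (h2.1 hp)
        · have hp' : ¬ 0 < sd a' b c' := fun h => hp (h2.2 h)
          exact mul_pos_of_neg_of_neg (lt_of_le_of_ne (not_lt.1 hp) n1)
            (lt_of_le_of_ne (not_lt.1 hp') n2)
      obtain ⟨r1, r2⟩ := del_unique hG hT hT' hs
      rw [r1, r2]
  rw [Finset.card_product, Finset.card_univ, Fintype.card_bool] at h1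
  omega

end Helper51.KD
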