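import Mathlib
import Pool.Agent.Helper97.CB.Defs
import Pool.Agent.Helper51.KD.Cnt

open MeasureTheory Set Filter Polynomial

namespace Helper51.KD

open Helper97.CB

/-- the determinant of four lifts -/
def D4 (q : ℂ → ℝ) (a b c d : ℂ) : ℝ :=
  cr (c - b) (d - b) * q a - cr (c - a) (d - a) * q b + cr (b - a) (d - a) * q c -
    cr (b - a) (c - a) * q d

theorem D4_aff (p r t : ℝ) (a b c d : ℂ) : D4 (aff p r t) a b c d = 0 := by
  simp only [D4, aff, cr, Complex.sub_re, Complex.sub_im]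
  ring

theorem D4_congr {q q' : ℂ → ℝ} {a b c d : ℂ} (ha : q a = q' a) (hb : q b = q' b)
    (hc : q c = q' c) (hd : q d = q' d) : D4 q a b c d = D4 q' a b c d := by
  simp only [D4, ha, hb, hc, hd]

/-- the polynomial of a quadruple -/
noncomputable def P4 (ε : ℝ) (i : ℂ → ℕ) (a b c d : ℂ) : ℝ[X] :=
  C (D4 (fun z => Complex.normSq z) a b c d) +
    C (ε * cr (c - b) (d - b)) * X ^ (i a + 1) - C (ε * cr (c - a) (d - a)) * X ^ (i b + 1) +
    C (ε * cr (b - a) (d - a)) * X ^ (i c + 1) - C (ε * cr (b - a) (c - a)) * X ^ (i d + 1)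

theorem P4_eval (ε : ℝ) (i : ℂ → ℕ) (a b c d : ℂ) (t : ℝ) :
    (P4 ε i a b c d).eval t = D4 (qf (fun z => ε * t ^ (i z + 1))) a b c d := by
  simp only [P4, D4, qf, eval_add, eval_sub, eval_mul, eval_C, eval_pow, eval_X]
  ring

theorem P4_ne {ε : ℝ} (hε : 0 < ε) {i : ℂ → ℕ} {a b c d : ℂ} (h : cr (b - a) (c - a) ≠ 0)
    (h1 : i d ≠ i a) (h2 : i d ≠ i b) (h3 : i d ≠ i c) : P4 ε i a b c d ≠ 0 := by
  intro h0
  have h4 := congrArg (fun p => p.coeff (i d + 1)) h0
  simp only [P4, coeff_add, coeff_sub, coeff_C_mul, coeff_X_pow, coeff_zero, coeff_C] at h4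
  rw [if_neg (by omega), if_neg (by omega), if_neg (by omega), if_neg (by omega),
    if_pos trivial] at h4
  have h5 : ε * cr (b - a) (c - a) ≠ 0 := mul_ne_zero hε.ne' h
  apply h5
  linarith

/-- generic heights exist -/
theorem gen_exists (S : Finset ℂ) {ε : ℝ} (hε : 0 < ε) :
    ∃ w : ℂ → ℝ, (∀ z, 0 ≤ w z ∧ w z ≤ ε) ∧ Gen S w := by
  classical
  obtain ⟨i, hi⟩ := Set.countable_iff_exists_injOn.1 (S.finite_toSet.countable)
  set B : Finset ℝ := (S ×ˢ S ×ˢ S ×ˢ S).biUnion
    (fun Q => (P4 ε i Q.1 Q.2.1 Q.2.2.1 Q.2.2.2).roots.toFinset) with hB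
  obtain ⟨t, ht, htB⟩ := (Set.Ioo_infinite (zero_lt_one' ℝ)).exists_notMem_finset B
  refine ⟨fun z => ε * t ^ (i z + 1), fun z => ⟨by have := ht.1; positivity, ?_⟩, ?_⟩
  · have : t ^ (i z + 1) ≤ 1 := pow_le_one₀ ht.1.le ht.2.le
    nlinarith
  · intro a ha b hb c hc d hd hn h1 h2 h3 p r s ea eb ec ed
    apply htB
    rw [hB, Finset.mem_biUnion]
    refine ⟨(a, b, c, d), ?_, ?_⟩
    · simp only [Finset.mem_product]
      exact ⟨ha, hb, hc, hd⟩
    · simp only
      rw [Multiset.mem_toFinset, mem_roots']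
      refine ⟨P4_ne hε hn (fun h => h1 (hi hd ha h)) (fun h => h2 (hi hd hb h))
        (fun h => h3 (hi hd hc h)), ?_⟩
      rw [IsRoot.def, P4_eval, ← D4_congr ea eb ec ed, D4_aff]

/-- a direction in which all points have different heights -/
theorem dir_exists (S : Finset ℂ) :
    ∃ u : ℂ, ‖u‖ = 1 ∧ Set.InjOn (fun z : ℂ => (u * z).im) (S : Set ℂ) := by
  classical
  set B : Finset ℝ := (S ×ˢ S).biUnion
    (fun Q => (C (Q.1 - Q.2).im + C (Q.1 - Q.2).re * X : ℝ[X]).roots.toFinset) with hB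
  obtain ⟨t, ht, htB⟩ := (Set.Ioo_infinite (zero_lt_one' ℝ)).exists_notMem_finset B
  set v : ℂ := ⟨1, t⟩ with hv
  have hv0 : v ≠ 0 := by
    intro h
    have := congrArg Complex.re h
    simp [hv] at this
  have hvn : 0 < ‖v‖ := norm_pos_iff.2 hv0
  refine ⟨((‖v‖⁻¹ : ℝ) : ℂ) * v, ?_, ?_⟩
  · rw [norm_mul, Complex.norm_real, norm_inv, norm_norm, inv_mul_cancel₀ hvn.ne']
  · intro a ha b hb hab
    by_contra hne
    apply htB
    rw [hB, Finset.mem_biUnion]
    refine ⟨(a, b), by simp only [Finset.mem_product]; exact ⟨ha, hb⟩, ?_⟩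
    simp only
    rw [Multiset.mem_toFinset, mem_roots']
    constructor
    · intro h0
      have c0 := congrArg (fun p => p.coeff 0) h0
      have c1 := congrArg (fun p => p.coeff 1) h0
      simp only [coeff_add, coeff_C_mul, coeff_zero, coeff_C_zero, coeff_X_zero, mul_zero,
        add_zero] at c0
      simp only [coeff_add, coeff_C_mul, coeff_zero, coeff_X_one, mul_one, coeff_C,
        one_ne_zero, if_false, zero_add] at c1
      apply hne
      apply sub_eq_zero.1
      exact Complex.ext c1 c0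
    · rw [IsRoot.def]
      simp only [eval_add, eval_mul, eval_C, eval_X]
      simp only [mul_assoc, Complex.im_ofReal_mul] at hab
      have h1 : (v * a).im = (v * b).im := mul_left_cancel₀ (inv_ne_zero hvn.ne') hab
      simp only [Complex.mul_im, hv] at h1
      simp only [Complex.sub_im, Complex.sub_re]
      linarith

end Helper51.KD
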