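import Mathlib
import Pool.Agent.Helper97.CB.Defs
import Pool.Agent.Helper51.KD.Cnt
import Pool.Agent.Helper51.KD.GenE
import Pool.Agent.Helper51.KD.Area
import Pool.Agent.Helper33.KD.Rad

open MeasureTheory Set Filter

namespace Helper51.KD

open Helper97.CB

/-- module EXC (helper88's form) -/
def StEXC : Prop := ∀ (S : Finset ℂ) (g : ℂ → ℝ) (x : ℂ), x ∈ convexHull ℝ (S : Set ℂ) →
  (∀ a ∈ S, ∀ b ∈ S, a ≠ b → cr (b - a) (x - a) ≠ 0) → x ∉ S →
  ∃ a ∈ S, ∃ b ∈ S, ∃ c ∈ S, cr (b - a) (c - a) ≠ 0 ∧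
    (∃ p q r : ℝ, p + q * a.re + r * a.im = g a ∧ p + q * b.re + r * b.im = g b ∧
      p + q * c.re + r * c.im = g c ∧ ∀ s ∈ S, p + q * s.re + r * s.im ≤ g s) ∧
    ∃ α β γ : ℝ, 0 < α ∧ 0 < β ∧ 0 < γ ∧ α + β + γ = 1 ∧ x = α • a + β • b + γ • c

/-- module HUL (helper33's form) -/
def StHUL : Prop := ∀ (S : Finset ℂ) (R : ℝ), (∀ y : ℂ, ‖y‖ ≤ R → ∃ s ∈ S, ‖y - s‖ ≤ 1) →
  ∀ x : ℂ, ‖x‖ ≤ R - 1 → x ∈ convexHull ℝ (S : Set ℂ)

/-- the line through `a` in the direction `u` is null -/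
theorem line_null (a u : ℂ) (hu : u ≠ 0) : volume {x : ℂ | cr u (x - a) = 0} = 0 := by
  have h1 : {x : ℂ | cr u (x - a) = 0} = (fun x => x + (-a)) ⁻¹'
      ((LinearMap.ker (u.re • Complex.imLm - u.im • Complex.reLm) : Submodule ℝ ℂ) : Set ℂ) := by
    ext x
    simp [cr, sub_eq_add_neg]
  rw [h1, measure_preimage_add_right]
  apply Measure.addHaar_submodule
  intro h
  have h2 : ∀ x : ℂ, (u.re • Complex.imLm - u.im • Complex.reLm) x = 0 := by
    intro x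
    have : x ∈ LinearMap.ker (u.re • Complex.imLm - u.im • Complex.reLm) := by
      rw [h]
      trivial
    exact this
  apply hu
  have h3 := h2 1
  have h4 := h2 Complex.I
  simp at h3 h4
  exact Complex.ext h4 h3

/-- the lines through two points of `S`, and the points of `S` -/
def Lin (S : Finset ℂ) : Set ℂ :=
  (⋃ a ∈ S, ⋃ b ∈ S, {x : ℂ | a ≠ b ∧ cr (b - a) (x - a) = 0}) ∪ (S : Set ℂ)

theorem lin_null (S : Finset ℂ) : volume (Lin S) = 0 := by
  apply measure_union_null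
  · refine (measure_biUnion_null_iff (I := (S : Set ℂ)) S.countable_toSet).2 ?_
    intro a _
    refine (measure_biUnion_null_iff (I := (S : Set ℂ)) S.countable_toSet).2 ?_
    intro b _
    by_cases h : a = b
    · simp [h]
    · refine measure_mono_null ?_ (line_null a (b - a) (sub_ne_zero.2 (Ne.symm h)))
      intro x hx
      exact hx.2
  · exact S.finite_toSet.measure_zero _

/-- sorting three points by height -/
theorem sort3 (P : ℂ → ℂ → ℂ → Prop) (h1 : ∀ a b c, P a b c → P b a c)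
    (h2 : ∀ a b c, P a b c → P a c b) {a b c : ℂ} (h : P a b c) (hab : a.im ≠ b.im)
    (hac : a.im ≠ c.im) (hbc : b.im ≠ c.im) :
    ∃ a' b' c', a'.im < b'.im ∧ b'.im < c'.im ∧ P a' b' c' := by
  rcases lt_or_gt_of_ne hab with h3 | h3
  · rcases lt_or_gt_of_ne hbc with h4 | h4
    · exact ⟨a, b, c, h3, h4, h⟩
    · rcases lt_or_gt_of_ne hac with h5 | h5
      · exact ⟨a, c, b, h5, h4, h2 _ _ _ h⟩
      · exact ⟨c, a, b, h5, h3, h1 _ _ _ (h2 _ _ _ h)⟩
  · rcases lt_or_gt_of_ne hbc with h4 | h4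
    · rcases lt_or_gt_of_ne hac with h5 | h5
      · exact ⟨b, a, c, h3, h5, h1 _ _ _ h⟩
      · exact ⟨b, c, a, h4, h5, h2 _ _ _ (h1 _ _ _ h)⟩
    · exact ⟨c, b, a, h4, h3, h2 _ _ _ (h1 _ _ _ (h2 _ _ _ h))⟩

/-- almost every point of the disk is in a Delaunay triangle -/
theorem cover (hE : StEXC) (hH : StHUL) (S : Finset ℂ) (w : ℂ → ℝ) (R : ℝ)
    (hI : Set.InjOn Complex.im (S : Set ℂ))
    (hS : ∀ y : ℂ, ‖y‖ ≤ R → ∃ s ∈ S, ‖y - s‖ ≤ 1) (x : ℂ) (hx : ‖x‖ ≤ R - 1) (hxL : x ∉ Lin S) :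
    ∃ T ∈ DT S w, x ∈ convexHull ℝ ({T.1, T.2.1, T.2.2} : Set ℂ) := by
  have h1 : ∀ a ∈ S, ∀ b ∈ S, a ≠ b → cr (b - a) (x - a) ≠ 0 := by
    intro a ha b hb hab h0
    apply hxL
    left
    simp only [mem_iUnion]
    exact ⟨a, ha, b, hb, hab, h0⟩
  have h2 : x ∉ S := fun h => hxL (Or.inr h)
  obtain ⟨a, ha, b, hb, c, hc, hn, ⟨p, q, r, la, lb, lc, hl⟩, α, β, γ, hα, hβ, hγ, hs, hxe⟩ :=
    hE S (qf w) x (hH S R hS x hx) h1 h2
  have hab : a ≠ b := by
    rintro rfl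
    apply hn
    simp [cr]
  have hac : a ≠ c := by
    rintro rfl
    apply hn
    simp [cr]
  have hbc : b ≠ c := by
    rintro rfl
    apply hn
    simp only [cr]
    ring
  have hmem : x ∈ convexHull ℝ ({a, b, c} : Set ℂ) := by
    have hconv := convex_convexHull ℝ ({a, b, c} : Set ℂ)
    have ma : a ∈ convexHull ℝ ({a, b, c} : Set ℂ) := subset_convexHull ℝ _ (by simp)
    have mb : b ∈ convexHull ℝ ({a, b, c} : Set ℂ) := subset_convexHull ℝ _ (by simp)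
    have mc : c ∈ convexHull ℝ ({a, b, c} : Set ℂ) := subset_convexHull ℝ _ (by simp)
    rw [hxe]
    have hz := hconv.sum_mem (t := (Finset.univ : Finset (Fin 3))) (w := ![α, β, γ])
      (z := ![a, b, c]) (by
        intro i _
        fin_cases i
        · exact hα.le
        · exact hβ.le
        · exact hγ.le) (by
        rw [Fin.sum_univ_three]
        exact hs) (by
        intro i _
        fin_cases i
        · exact ma
        · exact mb
        · exact mc)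
    rw [Fin.sum_univ_three] at hz
    exact hz
  have hP : ∃ a' b' c' : ℂ, a'.im < b'.im ∧ b'.im < c'.im ∧
      (a' ∈ S ∧ b' ∈ S ∧ c' ∈ S ∧ cr (b' - a') (c' - a') ≠ 0 ∧
        (∃ p r t : ℝ, aff p r t a' = qf w a' ∧ aff p r t b' = qf w b' ∧ aff p r t c' = qf w c' ∧
          ∀ s ∈ S, aff p r t s ≤ qf w s) ∧ x ∈ convexHull ℝ ({a', b', c'} : Set ℂ)) := by
    refine sort3 (fun a' b' c' => a' ∈ S ∧ b' ∈ S ∧ c' ∈ S ∧ cr (b' - a') (c' - a') ≠ 0 ∧
        (∃ p r t : ℝ, aff p r t a' = qf w a' ∧ aff p r t b' = qf w b' ∧ aff p r t c' = qf w c' ∧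
          ∀ s ∈ S, aff p r t s ≤ qf w s) ∧ x ∈ convexHull ℝ ({a', b', c'} : Set ℂ)) ?_ ?_
      (a := a) (b := b) (c := c) ?_ (fun h => hab (hI ha hb h)) (fun h => hac (hI ha hc h))
      (fun h => hbc (hI hb hc h))
    · rintro a b c ⟨ha, hb, hc, hn, ⟨p, r, t, la, lb, lc, hl⟩, hx⟩
      refine ⟨hb, ha, hc, ?_, ⟨p, r, t, lb, la, lc, hl⟩, ?_⟩
      · intro h0
        apply hn
        simp only [cr, Complex.sub_re, Complex.sub_im] at h0 ⊢
        linarith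
      · rwa [Set.insert_comm]
    · rintro a b c ⟨ha, hb, hc, hn, ⟨p, r, t, la, lb, lc, hl⟩, hx⟩
      refine ⟨ha, hc, hb, ?_, ⟨p, r, t, la, lc, lb, hl⟩, ?_⟩
      · intro h0
        apply hn
        simp only [cr, Complex.sub_re, Complex.sub_im] at h0 ⊢
        linarith
      · rwa [Set.pair_comm]
    · refine ⟨ha, hb, hc, hn, ⟨q, r, p, ?_, ?_, ?_, ?_⟩, hmem⟩
      · rw [← la]
        simp only [aff]
        ring
      · rw [← lb]
        simp only [aff]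
        ring
      · rw [← lc]
        simp only [aff]
        ring
      · intro s hs
        have := hl s hs
        simp only [aff]
        linarith
  obtain ⟨a', b', c', h3, h4, ha', hb', hc', hn', hl', hx'⟩ := hP
  exact ⟨(a', b', c'), mem_DT.2 ⟨ha', hb', hc', h3, h4, hn', hl'⟩, hx'⟩

/-- the finite inequality with a parameter -/
theorem fin_eps (hE : StEXC) (hH : StHUL) (S : Finset ℂ) (R : ℝ) (hR : 3 ≤ R)
    (hI : Set.InjOn Complex.im (S : Set ℂ))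
    (hS : ∀ y : ℂ, ‖y‖ ≤ R → ∃ s ∈ S, ‖y - s‖ ≤ 1) (ε : ℝ) (hε : 0 < ε) (hε1 : ε ≤ 1) :
    Real.pi * (R - 3) ^ 2 ≤ 2 * S.card * (3 * √3 / 4 * (1 + ε)) := by
  classical
  obtain ⟨w, hw, hG⟩ := gen_exists S hε
  set F := (DT S w).filter (fun T => ∃ x : ℂ, ‖x‖ ≤ R - 3 ∧
    x ∈ convexHull ℝ ({T.1, T.2.1, T.2.2} : Set ℂ)) with hF
  have hcov : Metric.closedBall (0 : ℂ) (R - 3) ⊆ Lin S ∪
      ⋃ T ∈ F, convexHull ℝ ({T.1, T.2.1, T.2.2} : Set ℂ) := by
    intro x hx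
    rw [mem_closedBall_zero_iff] at hx
    by_cases hxL : x ∈ Lin S
    · exact Or.inl hxL
    · right
      obtain ⟨T, hT, hxT⟩ := cover hE hH S w R hI hS x (by linarith) hxL
      simp only [mem_iUnion]
      refine ⟨T, ?_, hxT⟩
      rw [hF, Finset.mem_filter]
      exact ⟨hT, x, hx, hxT⟩
  have harea : ∀ T ∈ F, volume (convexHull ℝ ({T.1, T.2.1, T.2.2} : Set ℂ)) ≤
      ENNReal.ofReal (3 * √3 / 4 * (1 + ε)) := by
    intro T hT
    rw [hF, Finset.mem_filter] at hT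
    obtain ⟨hT, x, hx, hxT⟩ := hT
    rw [mem_DT] at hT
    obtain ⟨ha, hb, hc, -, -, -, p, r, t, la, lb, lc, hl⟩ := hT
    have key : ∀ z : ℂ, t + (⟨p, r⟩ : ℂ).re * z.re + (⟨p, r⟩ : ℂ).im * z.im = aff p r t z := by
      intro z
      simp only [aff]
      ring
    have key2 : ∀ z : ℂ, ‖z‖ ^ 2 + w z = qf w z := by
      intro z
      rw [qf, Complex.normSq_eq_norm_sq]
    obtain ⟨v, ρ, h0, h1, h2, h3, h4⟩ := Pool.Agent.Helper33.KD.rad S w ε R hε1
      (fun s _ => hw s) hS T.1 T.2.1 T.2.2 ha hb hc t ⟨p, r⟩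
      (by rw [key, key2, la]) (by rw [key, key2, lb]) (by rw [key, key2, lc])
      (fun s hs => by rw [key, key2]; exact hl s hs) x hxT hx
    refine (area_hull v _ _ _ ρ h2 h3 h4).trans (ENNReal.ofReal_le_ofReal ?_)
    have : 0 ≤ 3 * √3 / 4 := by positivity
    exact mul_le_mul_of_nonneg_left h1 this
  have h1 : volume (Metric.closedBall (0 : ℂ) (R - 3)) ≤
      (2 * S.card : ℕ) * ENNReal.ofReal (3 * √3 / 4 * (1 + ε)) := by
    calc volume (Metric.closedBall (0 : ℂ) (R - 3))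
        ≤ volume (Lin S ∪ ⋃ T ∈ F, convexHull ℝ ({T.1, T.2.1, T.2.2} : Set ℂ)) :=
          measure_mono hcov
      _ ≤ volume (Lin S) + volume (⋃ T ∈ F, convexHull ℝ ({T.1, T.2.1, T.2.2} : Set ℂ)) :=
          measure_union_le _ _
      _ = volume (⋃ T ∈ F, convexHull ℝ ({T.1, T.2.1, T.2.2} : Set ℂ)) := by
          rw [lin_null, zero_add]
      _ ≤ ∑ T ∈ F, volume (convexHull ℝ ({T.1, T.2.1, T.2.2} : Set ℂ)) :=
          measure_biUnion_finset_le _ _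
      _ ≤ ∑ _T ∈ F, ENNReal.ofReal (3 * √3 / 4 * (1 + ε)) := Finset.sum_le_sum harea
      _ = (F.card : ENNReal) * ENNReal.ofReal (3 * √3 / 4 * (1 + ε)) := by
          rw [Finset.sum_const, nsmul_eq_mul]
      _ ≤ (2 * S.card : ℕ) * ENNReal.ofReal (3 * √3 / 4 * (1 + ε)) := by
          gcongr
          exact (Finset.card_filter_le _ _).trans (card_DT hG)
  rw [Complex.volume_closedBall] at h1
  have h2 : ENNReal.ofReal (R - 3) ^ 2 * (NNReal.pi : ENNReal) =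
      ENNReal.ofReal (Real.pi * (R - 3) ^ 2) := by
    rw [← ENNReal.ofReal_pow (by linarith), mul_comm, ENNReal.ofReal_mul Real.pi_pos.le]
    congr 1
    rw [← NNReal.coe_real_pi, ENNReal.ofReal_coe_nnreal]
  have h3 : ((2 * S.card : ℕ) : ENNReal) * ENNReal.ofReal (3 * √3 / 4 * (1 + ε)) =
      ENNReal.ofReal (2 * S.card * (3 * √3 / 4 * (1 + ε))) := by
    rw [ENNReal.ofReal_mul (p := 2 * (S.card : ℝ)) (by positivity)]
    congr 1
    rw [← ENNReal.ofReal_natCast]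
    push_cast
    rfl
  rw [h2, h3] at h1
  have h4 : 0 ≤ 2 * (S.card : ℝ) * (3 * √3 / 4 * (1 + ε)) := by positivity
  exact (ENNReal.ofReal_le_ofReal_iff h4).1 h1

/-- **FIN.** A finite set which is 1-dense in the disk of radius `R` has at least
`π (R-3)² / (3 √3 / 2)` points. -/
theorem fin_main (hE : StEXC) (hH : StHUL) (S : Finset ℂ) (R : ℝ) (hR : 3 ≤ R)
    (hS : ∀ y : ℂ, ‖y‖ ≤ R → ∃ s ∈ S, ‖y - s‖ ≤ 1) :
    Real.pi * (R - 3) ^ 2 ≤ 3 * √3 / 2 * S.card := by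
  classical
  obtain ⟨u, hu, hI⟩ := dir_exists S
  have hu0 : u ≠ 0 := by
    intro h
    rw [h, norm_zero] at hu
    exact zero_ne_one hu
  have hinj : Function.Injective (fun z : ℂ => u * z) := mul_right_injective₀ hu0
  set S' := S.image (fun z : ℂ => u * z) with hS'
  have hcard : S'.card = S.card := Finset.card_image_of_injective S hinj
  have hI' : Set.InjOn Complex.im (S' : Set ℂ) := by
    rw [hS', Finset.coe_image]
    rintro _ ⟨a, ha, rfl⟩ _ ⟨b, hb, rfl⟩ h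
    simp only at h ⊢
    rw [hI ha hb h]
  have hS2 : ∀ y : ℂ, ‖y‖ ≤ R → ∃ s ∈ S', ‖y - s‖ ≤ 1 := by
    intro y hy
    obtain ⟨s, hs, h⟩ := hS (u⁻¹ * y) (by rw [norm_mul, norm_inv, hu]; simpa using hy)
    refine ⟨u * s, Finset.mem_image_of_mem _ hs, ?_⟩
    have e : y - u * s = u * (u⁻¹ * y - s) := by
      field_simp
    rw [e, norm_mul, hu, one_mul]
    exact h
  have h1 : ∀ ε : ℝ, 0 < ε → ε ≤ 1 →
      Real.pi * (R - 3) ^ 2 ≤ 2 * S.card * (3 * √3 / 4 * (1 + ε)) := by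
    intro ε h h'
    rw [← hcard]
    exact fin_eps hE hH S' R hR hI' hS2 ε h h'
  have hlim : Tendsto (fun ε : ℝ => 2 * (S.card : ℝ) * (3 * √3 / 4 * (1 + ε)))
      (nhdsWithin 0 (Ioi 0)) (nhds (2 * (S.card : ℝ) * (3 * √3 / 4 * (1 + 0)))) := by
    apply Filter.Tendsto.mono_left _ nhdsWithin_le_nhds
    apply Continuous.tendsto
    fun_prop
  have h2 := ge_of_tendsto hlim (by
    filter_upwards [Ioo_mem_nhdsGT (zero_lt_one' ℝ)] with ε hε
    exact h1 ε hε.1 hε.2.le)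
  calc Real.pi * (R - 3) ^ 2 ≤ 2 * (S.card : ℝ) * (3 * √3 / 4 * (1 + 0)) := h2
    _ = _ := by ring

end Helper51.KD
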