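import Mathlib
import Pool.Agent.Helper97.CB.Defs
import Pool.Agent.Helper51.KD.Fin
import Pool.Agent.Helper88.KD.Exc
import Pool.Agent.Helper33.KD.Exc
import Pool.Agent.Helper35.KD.Den

/-!
# Kershner's lower bound: the covering density of the closed unit disk is at least `2 π / √27`
-/

open MeasureTheory Set Filter Helper97.CB

namespace Helper51.KD

theorem exc : StEXC := fun _ g _ hx hg hxS => Pool.Agent.Helper88.KD.exists_delaunay g hx hg hxS

theorem hul : StHUL := fun S R hS x hx => Pool.Agent.Helper33.KD.hul S R hS x hx

/-- A finite set which is 1-dense in the disk of radius `R` has at least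
`π (R-3)² / (3 √3 / 2)` points. -/
theorem kershner_fin : Pool.Agent.Helper35.KD.StFin := fun S R hR hS =>
  fin_main exc hul S R (by linarith) hS

/-- Kershner: every covering of the plane by congruent copies of the closed unit disk has
density at least `2 π / √27`. -/
theorem kershner_dens (φ : ℕ → (ℂ ≃ᵢ ℂ)) (hφ : ⋃ i, φ i '' Metric.closedBall 0 1 = univ) :
    ENNReal.ofReal (2 * Real.pi / √27) ≤ dens (Metric.closedBall 0 1) φ :=
  Pool.Agent.Helper35.KD.hDEN kershner_fin φ hφ

/-- Kershner: the covering density of the closed unit disk is at least `2 π / √27`. -/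
theorem kershner : ENNReal.ofReal (2 * Real.pi / √27) ≤ theta (Metric.closedBall 0 1) :=
  Pool.Agent.Helper35.KD.theta_ge kershner_fin

end Helper51.KD
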