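import Mathlib
import Pool.Agent.Helper97.CB.Defs
import Pool.Agent.Helper51.KD.Kershner

/-!
# Project KD, complete: the covering density of the closed unit disk is at least `2 π / √27`
-/

open MeasureTheory Set Filter Helper97.CB Metric

namespace Helper51.KD

/-- Kershner's lower bound. -/
theorem disk_ge : ENNReal.ofReal (2 * Real.pi / √27) ≤ theta (closedBall (0 : ℂ) 1) := kershner

end Helper51.KD
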